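import Mathlib

set_option autoImplicit false

namespace Pool.Agent.Y241.PA

open Finset

section
variable {F : Type*} [Field F] [Fintype F] [DecidableEq F]

/-- a hyperbola has `q - 1` points -/
theorem card_hyp (a b c d k : F) (hb : b ≠ 0) (hd : d ≠ 0) (hk : k ≠ 0) :
    ((univ : Finset (F × F)).filter (fun t => (a + b * t.2) * (c + d * t.1) = k)).card
      = Fintype.card F - 1 := by
  have h1 : ((univ : Finset F).erase 0).card = Fintype.card F - 1 := by
    rw [card_erase_of_mem (mem_univ _), card_univ]
  rw [← h1]
  symm
  refine Finset.card_bij (fun z _ => ((k / z - c) / d, (z - a) / b)) ?_ ?_ ?_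
  · intro z hz
    have hz0 : z ≠ 0 := (Finset.mem_erase.1 hz).1
    simp only [mem_filter, mem_univ, true_and]
    field_simp
    ring
  · intro z hz z' hz' h
    have h2 : (z - a) / b = (z' - a) / b := congrArg Prod.snd h
    have h3 : z - a = z' - a := by
      field_simp at h2
      exact h2
    linear_combination h3
  · rintro ⟨y, r⟩ ht
    simp only [mem_filter, mem_univ, true_and] at ht
    have hz : a + b * r ≠ 0 := by
      intro h0
      rw [h0, zero_mul] at ht
      exact hk ht.symm
    refine ⟨a + b * r, Finset.mem_erase.2 ⟨hz, mem_univ _⟩, ?_⟩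
    ext
    · simp only
      field_simp
      linear_combination - ht
    · simp only
      field_simp
      ring

/-- square roots -/
theorem card_sqrt_le (e : F) : ((univ : Finset F).filter (fun r => r ^ 2 = e)).card ≤ 2 := by
  by_cases h : ∃ r0 : F, r0 ^ 2 = e
  · obtain ⟨r0, hr0⟩ := h
    refine (Finset.card_le_card (t := {r0, -r0}) ?_).trans Finset.card_le_two
    intro r hr
    simp only [mem_filter, mem_univ, true_and] at hr
    have h1 : (r - r0) * (r + r0) = 0 := by linear_combination hr - hr0
    simp only [mem_insert, mem_singleton]
    rcases mul_eq_zero.1 h1 with h2 | h2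
    · left; linear_combination h2
    · right; linear_combination h2
  · push Not at h
    rw [Finset.filter_eq_empty_iff.2 (fun r _ => h r)]
    simp

end

end Pool.Agent.Y241.PA
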