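import Pool.Agent.Y346.PA.Stm
import Pool.Agent.Y241.PA.LDBase

set_option autoImplicit false

namespace Pool.Agent.Y241.PA

open Finset

/-- `-1` and `3` are squares modulo `p = 1 (mod 12)` -/
theorem sq_facts (p : ℕ) [Fact p.Prime] (hp : p % 12 = 1) :
    ∃ i θ : ZMod p, i ^ 2 = -1 ∧ θ ^ 2 = 3 := by
  have hp2 : p ≠ 2 := by rintro rfl; norm_num at hp
  have hp3 : p ≠ 3 := by rintro rfl; norm_num at hp
  obtain ⟨i, hi⟩ : IsSquare (-1 : ZMod p) := ZMod.exists_sq_eq_neg_one_iff.2 (by omega)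
  obtain ⟨θ, hθ⟩ : IsSquare (3 : ZMod p) := by
    have : Fact (Nat.Prime 3) := ⟨by norm_num⟩
    have h1 := ZMod.exists_sq_eq_prime_iff_of_mod_four_eq_one (p := p) (q := 3) (by omega) (by norm_num)
    have h2 : IsSquare ((p : ℕ) : ZMod 3) := by
      have : ((p : ℕ) : ZMod 3) = 1 := by
        have h3 : ((p : ℕ) : ZMod 3) = ((1 : ℕ) : ZMod 3) := by
          rw [ZMod.natCast_eq_natCast_iff]
          unfold Nat.ModEq
          omega
        simpa using h3
      rw [this]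
      exact IsSquare.one
    have h4 := h1.2 h2
    exact_mod_cast h4
  exact ⟨i, θ, by rw [sq]; exact hi.symm, by rw [sq]; exact hθ.symm⟩

theorem or4 {A B C D : Prop} : (A ∨ B) ∨ (C ∨ D) ↔ (A ∨ C) ∨ (D ∨ B) := by tauto

theorem ld1_id {R : Type*} [CommRing R] (i c1 c2 x y r s : R) (hi : i ^ 2 = -1) :
    ((c1 * x + c2 * y) - i * (c1 * r - c2 * s)) * ((c1 * x - c2 * y) + i * (c1 * r + c2 * s)) =
      (c1 ^ 2 * x ^ 2 + -c2 ^ 2 * y ^ 2 + (c1 ^ 2 * r ^ 2 + -c2 ^ 2 * s ^ 2)) +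
        i * (2 * (c1 * c2) * (x * s + y * r)) := by
  linear_combination (-(c1 * r - c2 * s) * (c1 * r + c2 * s)) * hi

theorem ld1_id' {R : Type*} [CommRing R] (i c1 c2 x y r s : R) (hi : i ^ 2 = -1) :
    ((c1 * x + c2 * y) + i * (c1 * r - c2 * s)) * ((c1 * x - c2 * y) - i * (c1 * r + c2 * s)) =
      (c1 ^ 2 * x ^ 2 + -c2 ^ 2 * y ^ 2 + (c1 ^ 2 * r ^ 2 + -c2 ^ 2 * s ^ 2)) -
        i * (2 * (c1 * c2) * (x * s + y * r)) := by
  linear_combination (-(c1 * r - c2 * s) * (c1 * r + c2 * s)) * hi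

theorem ld1_id2 {R : Type*} [CommRing R] (i a b : R) (hi : i ^ 2 = -1) :
    a ^ 2 + b ^ 2 = (a + i * b) * (a - i * b) := by
  linear_combination b ^ 2 * hi

theorem ld1_id3 {R : Type*} [CommRing R] (i c1 c2 x y r s e f : R) (hsx : x * s = 1 - y * r) :
    x * ((c1 * x + f * c2 * y) - e * i * (c1 * r - f * c2 * s)) =
      (x + (-(e * i)) * r) * (c1 * x + (f * c2) * y) + e * f * i * c2 := by
  linear_combination (e * f * i * c2) * hsx

theorem ld1_id4 {R : Type*} [CommRing R] (i c1 c2 x y r e : R) (hi : i ^ 2 = -1) (he1 : e ^ 2 = 1)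
    (g1 : (x + -(e * i) * r) * (c1 * x + 1 * c2 * y) = -(e * 1 * i * c2))
    (g2 : (x + -(-e * i) * r) * (c1 * x + -1 * c2 * y) = -(-e * -1 * i * c2)) :
    2 * x * (c1 * (r ^ 2 + x ^ 2) + e * i * c2) = 0 := by
  linear_combination (x + e * i * r) * g1 + (x - e * i * r) * g2 +
    (2 * c1 * x * r ^ 2 * e ^ 2) * hi - (2 * c1 * x * r ^ 2) * he1

theorem ld1_aux (p : ℕ) [Fact p.Prime] (hp5 : 5 ≤ p) (a1 a2 i c1 c2 x : ZMod p) (hi : i ^ 2 = -1)
    (h1 : c1 ^ 2 = a1) (h2 : c2 ^ 2 = -a2) (hc : (c1 * c2) ^ 2 = 3) (hc1 : c1 ≠ 0) (hc2 : c2 ≠ 0)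
    (h20 : (2 : ZMod p) ≠ 0) (hx : x ≠ 0) :
    4 * p ≤ ((univ : Finset (ZMod p × ZMod p)).filter (fun t =>
      ((a1 * x ^ 2 + a2 * t.1 ^ 2) + (a1 * t.2 ^ 2 + a2 * ((1 - t.1 * t.2) / x) ^ 2)) ^ 2 + 12 =
        0)).card + 16 ∧
    ((univ : Finset (ZMod p × ZMod p)).filter (fun t =>
      ((a1 * x ^ 2 + a2 * t.1 ^ 2) + (a1 * t.2 ^ 2 + a2 * ((1 - t.1 * t.2) / x) ^ 2)) ^ 2 + 12 =
        0)).card ≤ 4 * p := by
  classical
  have hcard : Fintype.card (ZMod p) = p := ZMod.card p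
  have hi0 : i ≠ 0 := by
    rintro rfl
    norm_num at hi
  set T := (univ : Finset (ZMod p × ZMod p)).filter (fun t =>
      ((a1 * x ^ 2 + a2 * t.1 ^ 2) + (a1 * t.2 ^ 2 + a2 * ((1 - t.1 * t.2) / x) ^ 2)) ^ 2 + 12 =
        0) with hT
  -- the four hyperbolas, `e, f = ± 1`
  let P : ZMod p → ZMod p → Finset (ZMod p × ZMod p) := fun e f =>
    univ.filter (fun t => (x + (-(e * i)) * t.2) * (c1 * x + (f * c2) * t.1) = -(e * f * i * c2))
  have hP : ∀ e f : ZMod p, e ≠ 0 → f ≠ 0 → (P e f).card = p - 1 := by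
    intro e f he hf
    have := card_hyp (F := ZMod p) x (-(e * i)) (c1 * x) (f * c2) (-(e * f * i * c2))
      (neg_ne_zero.2 (mul_ne_zero he hi0)) (mul_ne_zero hf hc2)
      (neg_ne_zero.2 (mul_ne_zero (mul_ne_zero (mul_ne_zero he hf) hi0) hc2))
    rw [hcard] at this
    exact this
  have hTU : T = (P 1 1 ∪ P (-1) 1) ∪ (P 1 (-1) ∪ P (-1) (-1)) := by
    ext ⟨y, r⟩
    simp only [hT, P, mem_filter, mem_univ, true_and, mem_union]
    obtain ⟨s, hs⟩ : ∃ s, s = (1 - y * r) / x := ⟨_, rfl⟩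
    have hsx : x * s = 1 - y * r := by rw [hs]; field_simp
    rw [← hs]
    have e1 : ((a1 * x ^ 2 + a2 * y ^ 2) + (a1 * r ^ 2 + a2 * s ^ 2)) ^ 2 + 12 =
        ((c1 * x + c2 * y) - i * (c1 * r - c2 * s)) * ((c1 * x - c2 * y) + i * (c1 * r + c2 * s)) *
        (((c1 * x + c2 * y) + i * (c1 * r - c2 * s)) *
          ((c1 * x - c2 * y) - i * (c1 * r + c2 * s))) := by
      have hA1 : a1 = c1 ^ 2 := h1.symm
      have hA2 : a2 = -c2 ^ 2 := by rw [h2, neg_neg]
      have hq : (12 : ZMod p) = (2 * (c1 * c2) * (x * s + y * r)) ^ 2 := by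
        rw [hsx, show 1 - y * r + y * r = 1 by ring, mul_one, mul_pow, hc]
        norm_num
      rw [hq, hA1, hA2, ld1_id _ _ _ _ _ _ _ hi, ld1_id' _ _ _ _ _ _ _ hi]
      exact ld1_id2 _ _ _ hi
    have e4 : ∀ e f : ZMod p, e ^ 2 = 1 → f ^ 2 = 1 →
        ((c1 * x + f * c2 * y) - e * i * (c1 * r - f * c2 * s) = 0 ↔
        (x + (-(e * i)) * r) * (c1 * x + (f * c2) * y) = -(e * f * i * c2)) := by
      intro e f _ _
      have e5 : x * ((c1 * x + f * c2 * y) - e * i * (c1 * r - f * c2 * s)) =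
          (x + (-(e * i)) * r) * (c1 * x + (f * c2) * y) + e * f * i * c2 :=
        ld1_id3 _ _ _ _ _ _ _ _ _ hsx
      constructor
      · intro h
        rw [h, mul_zero] at e5
        linear_combination - e5
      · intro h
        rw [h] at e5
        have : x * ((c1 * x + f * c2 * y) - e * i * (c1 * r - f * c2 * s)) = 0 := by
          rw [e5]; ring
        exact (mul_eq_zero.1 this).resolve_left hx
    have f1 := e4 1 1 (by ring) (by ring)
    have f2 := e4 (-1) 1 (by ring) (by ring)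
    have f3 := e4 1 (-1) (by ring) (by ring)
    have f4 := e4 (-1) (-1) (by ring) (by ring)
    rw [e1, mul_eq_zero, mul_eq_zero, mul_eq_zero, ← f1, ← f2, ← f3, ← f4]
    have g1 : (c1 * x + c2 * y) - i * (c1 * r - c2 * s) =
      (c1 * x + 1 * c2 * y) - 1 * i * (c1 * r - 1 * c2 * s) := by ring
    have g2 : (c1 * x + c2 * y) + i * (c1 * r - c2 * s) =
      (c1 * x + 1 * c2 * y) - (-1) * i * (c1 * r - 1 * c2 * s) := by ring
    have g3 : (c1 * x - c2 * y) - i * (c1 * r + c2 * s) =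
      (c1 * x + (-1) * c2 * y) - 1 * i * (c1 * r - (-1) * c2 * s) := by ring
    have g4 : (c1 * x - c2 * y) + i * (c1 * r + c2 * s) =
      (c1 * x + (-1) * c2 * y) - (-1) * i * (c1 * r - (-1) * c2 * s) := by ring
    rw [g1, g2, g3, g4]
    exact or4
  have hdis : ∀ f : ZMod p, f ≠ 0 → Disjoint (P 1 f) (P (-1) f) := by
    intro f hf
    rw [Finset.disjoint_left]
    rintro ⟨y, r⟩ g1 g2
    simp only [P, mem_filter, mem_univ, true_and] at g1 g2
    have g3 : 2 * (x * (c1 * x + f * c2 * y)) = 0 := by linear_combination g1 + g2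
    have g4 := (mul_eq_zero.1 ((mul_eq_zero.1 g3).resolve_left h20)).resolve_left hx
    have g5 : f * i * c2 = 0 := by linear_combination g1 - (x - i * r) * g4
    exact mul_ne_zero (mul_ne_zero hf hi0) hc2 g5
  have hdis2 : ∀ e : ZMod p, Disjoint (P e 1) (P e (-1)) ∨ e = 0 := by
    intro e
    by_cases he : e = 0
    · exact Or.inr he
    left
    rw [Finset.disjoint_left]
    rintro ⟨y, r⟩ g1 g2
    simp only [P, mem_filter, mem_univ, true_and] at g1 g2
    have g3 : 2 * ((x - e * i * r) * (c1 * x)) = 0 := by linear_combination g1 + g2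
    have g4 := (mul_eq_zero.1 g3).resolve_left h20
    have g5 := (mul_eq_zero.1 g4).resolve_right (mul_ne_zero hc1 hx)
    have g6 : e * i * c2 = 0 := by linear_combination g1 - (c1 * x + c2 * y) * g5
    exact mul_ne_zero (mul_ne_zero he hi0) hc2 g6
  have hone : (1 : ZMod p) ≠ 0 := one_ne_zero
  have hmone : (-1 : ZMod p) ≠ 0 := neg_ne_zero.2 one_ne_zero
  have hcA : (P 1 1 ∪ P (-1) 1).card = 2 * (p - 1) := by
    rw [card_union_of_disjoint (hdis 1 hone), hP _ _ hone hone, hP _ _ hmone hone]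
    ring
  have hcB : (P 1 (-1) ∪ P (-1) (-1)).card = 2 * (p - 1) := by
    rw [card_union_of_disjoint (hdis (-1) hmone), hP _ _ hone hmone, hP _ _ hmone hmone]
    ring
  -- intersections
  have hint : ∀ e : ZMod p, e ≠ 0 → e ^ 2 = 1 → (P e 1 ∩ P (-e) (-1)).card ≤ 2 := by
    intro e he he1
    refine le_trans ?_ (card_sqrt_le (F := ZMod p) (-(e * i * c2 / c1) - x ^ 2))
    apply Finset.card_le_card_of_injOn (fun t => t.2)
    · rintro ⟨y, r⟩ hyr
      simp only [P, coe_inter, coe_filter, mem_univ, true_and, Set.mem_inter_iff,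
        Set.mem_ofPred_eq] at hyr
      obtain ⟨g1, g2⟩ := hyr
      simp only [coe_filter, mem_univ, true_and, Set.mem_ofPred_eq]
      have g3 : 2 * x * (c1 * (r ^ 2 + x ^ 2) + e * i * c2) = 0 :=
        ld1_id4 _ _ _ _ _ _ _ hi he1 g1 g2
      have g4 := (mul_eq_zero.1 g3).resolve_left (mul_ne_zero h20 hx)
      field_simp
      linear_combination g4
    · rintro ⟨y, r⟩ hyr ⟨y', r'⟩ hyr' hrr
      simp only [P, coe_inter, coe_filter, mem_univ, true_and, Set.mem_inter_iff,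
        Set.mem_ofPred_eq] at hyr hyr'
      have hr : r = r' := hrr
      subst hr
      have hne : x + -(e * i) * r ≠ 0 := by
        intro h0
        have g1 := hyr.1
        rw [h0, zero_mul] at g1
        exact mul_ne_zero (mul_ne_zero (mul_ne_zero he hone) hi0) hc2 (neg_eq_zero.1 g1.symm)
      have g1 : (x + -(e * i) * r) * (c2 * (y - y')) = 0 := by
        linear_combination hyr.1 - hyr'.1
      have g2 := (mul_eq_zero.1 ((mul_eq_zero.1 g1).resolve_left hne)).resolve_left hc2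
      ext
      · exact sub_eq_zero.1 g2
      · rfl
  have hcI : ((P 1 1 ∪ P (-1) 1) ∩ (P 1 (-1) ∪ P (-1) (-1))).card ≤ 4 := by
    have hsub : (P 1 1 ∪ P (-1) 1) ∩ (P 1 (-1) ∪ P (-1) (-1)) ⊆
        (P 1 1 ∩ P (-1) (-1)) ∪ (P (-1) 1 ∩ P 1 (-1)) := by
      intro t ht
      rw [mem_inter, mem_union, mem_union] at ht
      rw [mem_union, mem_inter, mem_inter]
      rcases ht with ⟨g1 | g1, g2 | g2⟩
      · exact absurd g2 (Finset.disjoint_left.1 ((hdis2 1).resolve_right hone) g1)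
      · exact Or.inl ⟨g1, g2⟩
      · exact Or.inr ⟨g1, g2⟩
      · exact absurd g2 (Finset.disjoint_left.1 ((hdis2 (-1)).resolve_right hmone) g1)
    refine (Finset.card_le_card hsub).trans ((Finset.card_union_le _ _).trans ?_)
    have k1 := hint 1 hone (by ring)
    have k2 := hint (-1) hmone (by ring)
    rw [neg_neg] at k2
    omega
  have hsum := Finset.card_union_add_card_inter (P 1 1 ∪ P (-1) 1) (P 1 (-1) ∪ P (-1) (-1))
  rw [← hTU, hcA, hcB] at hsum
  constructor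
  · omega
  · omega

/-- Task LD1 of project PA. -/
theorem ld1 : Pool.Agent.Y346.PA.S_LD1 := by
  intro p _ hp a1 a2 ha x hx
  obtain ⟨i, θ, hi, hθ⟩ := sq_facts p hp
  have hp2 := (Fact.out : p.Prime).two_le
  have hp5 : 5 ≤ p := by omega
  have h20 : (2 : ZMod p) ≠ 0 := by
    have : ((2 : ℕ) : ZMod p) ≠ 0 := by
      rw [Ne, ZMod.natCast_eq_zero_iff]
      intro h
      have := Nat.le_of_dvd (by norm_num) h
      omega
    exact_mod_cast this
  have h30 : (3 : ZMod p) ≠ 0 := by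
    have : ((3 : ℕ) : ZMod p) ≠ 0 := by
      rw [Ne, ZMod.natCast_eq_zero_iff]
      intro h
      have := Nat.le_of_dvd (by norm_num) h
      omega
    exact_mod_cast this
  have hθ0 : θ ≠ 0 := by
    rintro rfl
    apply h30
    rw [← hθ]
    ring
  rcases ha with ⟨rfl, rfl⟩ | ⟨rfl, rfl⟩
  · exact ld1_aux p hp5 _ _ i 1 θ x hi (by push_cast; ring) (by push_cast; rw [hθ]; ring)
      (by rw [one_mul, hθ]) one_ne_zero hθ0 h20 hx
  · exact ld1_aux p hp5 _ _ i θ 1 x hi (by push_cast; rw [hθ]) (by push_cast; ring)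
      (by rw [mul_one, hθ]) hθ0 one_ne_zero h20 hx

end Pool.Agent.Y241.PA
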