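import Pool.Agent.Y346.PA.Stm
import Pool.Agent.Y241.PA.LDBase

set_option autoImplicit false

namespace Pool.Agent.Y241.PA

open Finset

theorem exists_omega (p : ℕ) [Fact p.Prime] (hp : p % 3 = 1) :
    ∃ ω : ZMod p, ω ^ 2 + ω + 1 = 0 ∧ ω ≠ ω ^ 2 ∧ ω ≠ 0 := by
  have hp3 : p ≠ 3 := by rintro rfl; norm_num at hp
  have h3 : (3 : ℕ) ∣ p - 1 := by
    have := (Fact.out : p.Prime).two_le
    omega
  have hcard : Fintype.card (ZMod p)ˣ = p - 1 := ZMod.card_units p
  have : Fact (Nat.Prime 3) := ⟨by norm_num⟩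
  obtain ⟨g, hg⟩ := exists_prime_orderOf_dvd_card 3 (hcard ▸ h3)
  have hg1 : g ≠ 1 := by
    rintro rfl
    simp at hg
  have hg3 : g ^ 3 = 1 := by rw [← hg, pow_orderOf_eq_one]
  have hw3 : (g : ZMod p) ^ 3 = 1 := by
    have := congrArg Units.val hg3
    simpa using this
  have hw1 : (g : ZMod p) ≠ 1 := fun h => hg1 (Units.ext h)
  have hw : (g : ZMod p) ^ 2 + g + 1 = 0 := by
    have : ((g : ZMod p) - 1) * ((g : ZMod p) ^ 2 + g + 1) = 0 := by linear_combination hw3
    exact (mul_eq_zero.1 this).resolve_left (sub_ne_zero.2 hw1)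
  refine ⟨g, hw, ?_, g.ne_zero⟩
  intro h
  have h2 : (g : ZMod p) * ((g : ZMod p) - 1) = 0 := by linear_combination -h
  rcases mul_eq_zero.1 h2 with h3 | h3
  · exact g.ne_zero h3
  · exact hw1 (sub_eq_zero.1 h3)

/-- Task LD2 of project PA. -/
theorem ld2 : Pool.Agent.Y346.PA.S_LD2 := by
  classical
  intro p _ hp x hx
  obtain ⟨ω, hω, hωω, hω0⟩ := exists_omega p hp
  have hcard : Fintype.card (ZMod p) = p := ZMod.card p
  have hp2 : 2 ≤ p := (Fact.out : p.Prime).two_le
  set T := (univ : Finset (ZMod p × ZMod p)).filter (fun t =>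
      (x ^ 2 + x * t.1 + t.1 ^ 2) *
        (t.2 ^ 2 + t.2 * ((t.1 * t.2 - 1) / x) + ((t.1 * t.2 - 1) / x) ^ 2) = 0) with hT
  let A : ZMod p → Finset (ZMod p × ZMod p) := fun e => univ.filter (fun t => t.1 = e * x)
  let B : ZMod p → Finset (ZMod p × ZMod p) := fun e =>
    univ.filter (fun t => (0 + 1 * t.2) * (-(e * x) + 1 * t.1) = 1)
  have hA : ∀ e, (A e).card = p := by
    intro e
    have h1 : A e = ({e * x} : Finset (ZMod p)) ×ˢ (univ : Finset (ZMod p)) := by
      ext ⟨y, r⟩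
      simp [A, eq_comm]
    rw [h1, card_product, card_singleton, one_mul, card_univ, hcard]
  have hB : ∀ e, (B e).card = p - 1 := by
    intro e
    have := card_hyp (F := ZMod p) 0 1 (-(e * x)) 1 1 one_ne_zero one_ne_zero one_ne_zero
    rw [hcard] at this
    exact this
  have hTU : T = (A ω ∪ A (ω ^ 2)) ∪ (B ω ∪ B (ω ^ 2)) := by
    ext ⟨y, r⟩
    simp only [hT, A, B, mem_filter, mem_univ, true_and, mem_union]
    have e1 : x ^ 2 + x * y + y ^ 2 = (y - ω * x) * (y - ω ^ 2 * x) := by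
      linear_combination (x * y + x ^ 2 * (1 - ω)) * hω
    have e2 : ∀ s : ZMod p, r ^ 2 + r * s + s ^ 2 = (s - ω * r) * (s - ω ^ 2 * r) := by
      intro s
      linear_combination (r * s + r ^ 2 * (1 - ω)) * hω
    have e3 : ∀ e : ZMod p, (y * r - 1) / x - e * r = 0 ↔
        (0 + 1 * r) * (-(e * x) + 1 * y) = 1 := by
      intro e
      constructor
      · intro h
        field_simp at h
        linear_combination h
      · intro h
        field_simp
        linear_combination h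
    rw [e1, e2, mul_eq_zero, mul_eq_zero, mul_eq_zero, e3, e3, sub_eq_zero, sub_eq_zero]
  -- the hyperbolas are disjoint, and so are the lines
  have hdA : Disjoint (A ω) (A (ω ^ 2)) := by
    rw [Finset.disjoint_left]
    rintro ⟨y, r⟩ h1 h2
    simp only [A, mem_filter, mem_univ, true_and] at h1 h2
    rw [h1] at h2
    exact hωω (mul_right_cancel₀ hx h2)
  have hdB : Disjoint (B ω) (B (ω ^ 2)) := by
    rw [Finset.disjoint_left]
    rintro ⟨y, r⟩ h1 h2
    simp only [B, mem_filter, mem_univ, true_and] at h1 h2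
    have h3 : r * x * (ω - ω ^ 2) = 0 := by linear_combination h2 - h1
    rcases mul_eq_zero.1 h3 with h4 | h4
    · rcases mul_eq_zero.1 h4 with h5 | h5
      · rw [h5] at h1
        simp at h1
      · exact hx h5
    · exact hωω (sub_eq_zero.1 h4)
  have hcA : (A ω ∪ A (ω ^ 2)).card = 2 * p := by
    rw [card_union_of_disjoint hdA, hA, hA]
    ring
  have hcB : (B ω ∪ B (ω ^ 2)).card = 2 * (p - 1) := by
    rw [card_union_of_disjoint hdB, hB, hB]
    ring
  have hcI : ((A ω ∪ A (ω ^ 2)) ∩ (B ω ∪ B (ω ^ 2))).card ≤ 2 := by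
    refine (Finset.card_le_card (t := {(ω * x, ((ω - ω ^ 2) * x)⁻¹),
      (ω ^ 2 * x, ((ω ^ 2 - ω) * x)⁻¹)}) ?_).trans Finset.card_le_two
    rintro ⟨y, r⟩ h
    simp only [A, B, mem_inter, mem_union, mem_filter, mem_univ, true_and] at h
    simp only [mem_insert, mem_singleton, Prod.mk.injEq]
    have hne1 : (ω - ω ^ 2) * x ≠ 0 := mul_ne_zero (sub_ne_zero.2 hωω) hx
    have hne2 : (ω ^ 2 - ω) * x ≠ 0 := mul_ne_zero (sub_ne_zero.2 hωω.symm) hx
    rcases h with ⟨h1 | h1, h2 | h2⟩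
    · rw [h1] at h2
      ring_nf at h2
      exact absurd h2 zero_ne_one
    · left
      refine ⟨h1, ?_⟩
      rw [h1] at h2
      apply eq_inv_of_mul_eq_one_left
      linear_combination h2
    · right
      refine ⟨h1, ?_⟩
      rw [h1] at h2
      apply eq_inv_of_mul_eq_one_left
      linear_combination h2
    · rw [h1] at h2
      ring_nf at h2
      exact absurd h2 zero_ne_one
  have hsum := Finset.card_union_add_card_inter (A ω ∪ A (ω ^ 2)) (B ω ∪ B (ω ^ 2))
  rw [← hTU, hcA, hcB] at hsum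
  constructor
  · omega
  · omega

end Pool.Agent.Y241.PA
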