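import Pool.Agent.Y241.PA.LDBase

set_option autoImplicit false

namespace Pool.Agent.Y241.PA

open Finset

section
variable {F : Type*} [Field F] [Fintype F] [DecidableEq F]

/-- a quadratic polynomial has at most two roots -/
theorem card_quad_le (A B C : F) (hA : A ≠ 0) :
    ((univ : Finset F).filter (fun y => A * y ^ 2 + B * y + C = 0)).card ≤ 2 := by
  by_cases h : ∃ y0 : F, A * y0 ^ 2 + B * y0 + C = 0
  · obtain ⟨y0, hy0⟩ := h
    refine (Finset.card_le_card (t := {y0, -B / A - y0}) ?_).trans Finset.card_le_two
    intro y hy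
    simp only [mem_filter, mem_univ, true_and] at hy
    have h1 : (y - y0) * (A * (y + y0) + B) = 0 := by linear_combination hy - hy0
    simp only [mem_insert, mem_singleton]
    rcases mul_eq_zero.1 h1 with h2 | h2
    · left; linear_combination h2
    · right
      field_simp
      linear_combination h2
  · push Not at h
    rw [Finset.filter_eq_empty_iff.2 (fun y _ => h y)]
    simp

/-- at least half of the nonzero elements are not squares -/
theorem card_nonsq (n0 : F) (hn0 : ¬ IsSquare n0) :
    Fintype.card F - 1 ≤ 2 * ((univ : Finset F).filter (fun a => ¬ IsSquare a)).card := by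
  have h1 : ((univ : Finset F).erase 0).card = Fintype.card F - 1 := by
    rw [card_erase_of_mem (mem_univ _), card_univ]
  have hn00 : n0 ≠ 0 := by
    rintro rfl
    exact hn0 IsSquare.zero
  have h2 := Finset.card_filter_add_card_filter_not (s := (univ : Finset F).erase 0)
    (fun a => IsSquare a)
  have h3 : (((univ : Finset F).erase 0).filter (fun a => IsSquare a)).card ≤
      ((univ : Finset F).filter (fun a => ¬ IsSquare a)).card := by
    apply Finset.card_le_card_of_injOn (fun a => n0 * a)
    · intro a ha
      simp only [coe_filter, mem_erase, mem_univ, and_true, Set.mem_ofPred_eq, true_and] at ha ⊢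
      intro h4
      apply hn0
      have h5 : n0 = (n0 * a) / a := by field_simp [ha.1]
      rw [h5]
      exact h4.div ha.2
    · intro a _ b _ hab
      exact mul_left_cancel₀ hn00 hab
  have h4 : (((univ : Finset F).erase 0).filter (fun a => ¬ IsSquare a)).card ≤
      ((univ : Finset F).filter (fun a => ¬ IsSquare a)).card :=
    Finset.card_le_card (Finset.filter_subset_filter _ (Finset.erase_subset _ _))
  omega

/-- the norm form `x^2 - m y^2`, `m` not a square, represents every nonzero element often -/
theorem card_norm (m : F) (hm : ¬ IsSquare m) (h2 : (2 : F) ≠ 0) (u : F) (hu : u ≠ 0) :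
    Fintype.card F + 1 ≤
      ((univ : Finset (F × F)).filter (fun t => t.1 ^ 2 - m * t.2 ^ 2 = u)).card := by
  have hm0 : m ≠ 0 := by
    rintro rfl
    exact hm IsSquare.zero
  have haniso : ∀ x y : F, x ^ 2 - m * y ^ 2 = 0 → x = 0 ∧ y = 0 := by
    intro x y h
    by_cases hy : y = 0
    · refine ⟨?_, hy⟩
      rw [hy] at h
      have : x ^ 2 = 0 := by linear_combination h
      exact pow_eq_zero_iff (two_ne_zero) |>.1 this
    · exfalso
      apply hm
      refine ⟨x / y, ?_⟩
      field_simp
      linear_combination - h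
  have hodd : Fintype.card F % 2 = 1 := by
    apply FiniteField.odd_card_of_char_ne_two
    intro h
    apply h2
    have := CharP.cast_eq_zero F (ringChar F)
    rw [h] at this
    exact_mod_cast this
  have hex : ∀ v : F, ∃ x y : F, x ^ 2 - m * y ^ 2 = v := by
    intro v
    obtain ⟨a, b, hab⟩ := FiniteField.exists_root_sum_quadratic
      (f := Polynomial.X ^ 2 - Polynomial.C v) (g := Polynomial.C (-m) * Polynomial.X ^ 2)
      (Polynomial.degree_X_pow_sub_C (by norm_num) v)
      (Polynomial.degree_C_mul_X_pow 2 (neg_ne_zero.2 hm0)) hodd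
    refine ⟨a, b, ?_⟩
    simp at hab
    linear_combination hab
  let S : F → Finset (F × F) := fun v =>
    (univ : Finset (F × F)).filter (fun t => t.1 ^ 2 - m * t.2 ^ 2 = v)
  have hcmp : ∀ v, v ≠ 0 → (S v).card ≤ (S u).card := by
    intro v hv
    obtain ⟨x0, y0, h0⟩ := hex (u / v)
    have huv : u / v ≠ 0 := div_ne_zero hu hv
    apply Finset.card_le_card_of_injOn
      (fun t => (x0 * t.1 + m * y0 * t.2, x0 * t.2 + y0 * t.1))
    · rintro ⟨x, y⟩ hxy
      simp only [S, coe_filter, mem_univ, true_and, Set.mem_ofPred_eq] at hxy ⊢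
      have : (x0 * x + m * y0 * y) ^ 2 - m * (x0 * y + y0 * x) ^ 2 =
        (x0 ^ 2 - m * y0 ^ 2) * (x ^ 2 - m * y ^ 2) := by ring
      rw [this, h0, hxy]
      field_simp
    · rintro ⟨x, y⟩ _ ⟨x', y'⟩ _ h
      have e1 : x0 * x + m * y0 * y = x0 * x' + m * y0 * y' := congrArg Prod.fst h
      have e2 : x0 * y + y0 * x = x0 * y' + y0 * x' := congrArg Prod.snd h
      have e3 : (u / v) * (x - x') = 0 := by
        rw [← h0]
        linear_combination x0 * e1 - m * y0 * e2
      have e4 : (u / v) * (y - y') = 0 := by
        rw [← h0]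
        linear_combination x0 * e2 - y0 * e1
      ext
      · exact sub_eq_zero.1 ((mul_eq_zero.1 e3).resolve_left huv)
      · exact sub_eq_zero.1 ((mul_eq_zero.1 e4).resolve_left huv)
  have hsum : (univ : Finset (F × F)).card = ∑ v : F, (S v).card := by
    apply Finset.card_eq_sum_card_fiberwise
    intro t _
    exact Finset.mem_coe.2 (mem_univ _)
  have hS0 : (S 0).card = 1 := by
    have : S 0 = {(0, 0)} := by
      ext ⟨x, y⟩
      simp only [S, mem_filter, mem_univ, true_and, mem_singleton, Prod.mk.injEq]
      constructor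
      · intro h
        exact haniso x y h
      · rintro ⟨rfl, rfl⟩
        ring
    rw [this, card_singleton]
  rw [card_univ, Fintype.card_prod, ← Finset.add_sum_erase univ _ (mem_univ (0 : F)), hS0] at hsum
  have hle : ∑ v ∈ univ.erase (0 : F), (S v).card ≤ (Fintype.card F - 1) * (S u).card := by
    have h3 : ((univ : Finset F).erase 0).card = Fintype.card F - 1 := by
      rw [card_erase_of_mem (mem_univ _), card_univ]
    rw [← h3]
    have := Finset.sum_le_card_nsmul (univ.erase (0 : F)) (fun v => (S v).card) (S u).card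
      (fun v hv => hcmp v (Finset.mem_erase.1 hv).1)
    simpa using this
  have hq : 2 ≤ Fintype.card F := Fintype.one_lt_card
  obtain ⟨k, hk⟩ : ∃ k, Fintype.card F = k + 2 := ⟨Fintype.card F - 2, by omega⟩
  rw [hk] at hsum hle ⊢
  have h4 : (k + 2) * (k + 2) ≤ 1 + (k + 1) * (S u).card := by
    rw [hsum]
    have : k + 2 - 1 = k + 1 := by omega
    rw [this] at hle
    omega
  have h5 : (k + 1) * (k + 3) ≤ (k + 1) * (S u).card := by nlinarith
  exact Nat.le_of_mul_le_mul_left h5 (by omega)

end

end Pool.Agent.Y241.PA
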