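import Pool.Agent.Y346.PA.Stm
import Pool.Agent.Y241.PA.LD5Base

set_option autoImplicit false

namespace Pool.Agent.Y241.PA

open Finset

theorem two_nonsq3 : ¬ IsSquare (2 : ZMod 3) := by decide

/-- `3` is not a square modulo `p = 5 (mod 12)` -/
theorem three_nonsq (p : ℕ) [Fact p.Prime] (hp : p % 12 = 5) : ¬ IsSquare (3 : ZMod p) := by
  intro h
  have : Fact (Nat.Prime 3) := ⟨by norm_num⟩
  have h1 := ZMod.exists_sq_eq_prime_iff_of_mod_four_eq_one (p := p) (q := 3) (by omega) (by norm_num)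
  have h2 : IsSquare ((p : ℕ) : ZMod 3) := by
    apply h1.1
    exact_mod_cast h
  have h3 : ((p : ℕ) : ZMod 3) = 2 := by
    have h3 : ((p : ℕ) : ZMod 3) = ((2 : ℕ) : ZMod 3) := by
      rw [ZMod.natCast_eq_natCast_iff]
      unfold Nat.ModEq
      omega
    simpa using h3
  rw [h3] at h2
  exact two_nonsq3 h2

theorem qt_upper (p : ℕ) [Fact p.Prime] (a1 a2 : ZMod p) (ha2 : a2 ≠ 0)
    (Q : ZMod p × ZMod p → Prop) [DecidablePred Q] (x : ZMod p) (hx : x ≠ 0) :
    ((univ : Finset (ZMod p × ZMod p)).filter (fun t =>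
      (a1 * x ^ 2 + a2 * t.1 ^ 2) + (a1 * t.2 ^ 2 + a2 * ((1 - t.1 * t.2) / x) ^ 2) = 2 ∧
      Q t)).card ≤ 4 * p := by
  classical
  have hcard : Fintype.card (ZMod p) = p := ZMod.card p
  let S1 : Finset (ZMod p × ZMod p) := univ ×ˢ (univ.filter fun r => r ^ 2 = -x ^ 2)
  let S2 : Finset (ZMod p × ZMod p) := univ.filter (fun t =>
      (a1 * x ^ 2 + a2 * t.1 ^ 2) + (a1 * t.2 ^ 2 + a2 * ((1 - t.1 * t.2) / x) ^ 2) = 2 ∧
      t.2 ^ 2 ≠ -x ^ 2)
  have h1 : S1.card ≤ 2 * p := by
    rw [card_product, card_univ, hcard, mul_comm]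
    exact Nat.mul_le_mul_right _ (card_sqrt_le _)
  have h2 : S2.card ≤ 2 * p := by
    refine (Finset.card_le_mul_card_image (f := Prod.snd) S2 2 ?_).trans ?_
    · intro r hr
      rw [Finset.mem_image] at hr
      obtain ⟨⟨y1, r1⟩, h3, rfl⟩ := hr
      have hr1 : r1 ^ 2 ≠ -x ^ 2 := by
        simp only [S2, mem_filter, mem_univ, true_and] at h3
        exact h3.2
      have hA : a2 * (x ^ 2 + r1 ^ 2) ≠ 0 := by
        apply mul_ne_zero ha2
        intro h4
        apply hr1
        linear_combination h4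
      refine le_trans ?_ (card_quad_le (a2 * (x ^ 2 + r1 ^ 2)) (-(2 * a2 * r1))
        (a1 * x ^ 4 + a1 * r1 ^ 2 * x ^ 2 + a2 - 2 * x ^ 2) hA)
      apply Finset.card_le_card_of_injOn (fun t => t.1)
      · rintro ⟨y, r⟩ hyr
        simp only [S2, coe_filter, mem_filter, mem_univ, true_and, Set.mem_ofPred_eq] at hyr ⊢
        obtain ⟨⟨h5, -⟩, rfl⟩ := hyr
        field_simp at h5
        linear_combination h5
      · rintro ⟨y, r⟩ hyr ⟨y', r'⟩ hyr' h6
        simp only [S2, coe_filter, mem_filter, mem_univ, true_and, Set.mem_ofPred_eq] at hyr hyr'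
        obtain ⟨-, rfl⟩ := hyr
        obtain ⟨-, rfl⟩ := hyr'
        have h7 : y = y' := h6
        rw [h7]
    · have : (S2.image Prod.snd).card ≤ p := by
        have := Finset.card_le_univ (S2.image Prod.snd)
        rwa [hcard] at this
      omega
  have h3 : ((univ : Finset (ZMod p × ZMod p)).filter (fun t =>
      (a1 * x ^ 2 + a2 * t.1 ^ 2) + (a1 * t.2 ^ 2 + a2 * ((1 - t.1 * t.2) / x) ^ 2) = 2 ∧
      Q t)) ⊆ S1 ∪ S2 := by
    rintro ⟨y, r⟩ h
    simp only [mem_filter, mem_univ, true_and] at h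
    simp only [S1, S2, mem_union, mem_product, mem_filter, mem_univ, true_and]
    by_cases h4 : r ^ 2 = -x ^ 2
    · exact Or.inl h4
    · exact Or.inr ⟨h.1, h4⟩
  refine (Finset.card_le_card h3).trans ((Finset.card_union_le _ _).trans ?_)
  omega

theorem qt_lower (p : ℕ) [Fact p.Prime] (hp5 : 5 ≤ p) (a1 a2 ι : ZMod p) (haa : a1 * a2 = -3)
    (hι : ι ^ 2 = -1) (h3 : ¬ IsSquare (3 : ZMod p)) (h20 : (2 : ZMod p) ≠ 0)
    (ha2 : a2 ≠ 0)
    (hR : ∀ u : ZMod p, u ≠ 0 → p + 1 ≤
      ((univ : Finset (ZMod p × ZMod p)).filter (fun t => a1 * t.1 ^ 2 + a2 * t.2 ^ 2 = u)).card)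
    (QQ : ZMod p → Finset (ZMod p × ZMod p))
    (hQQ : ∀ x y r : ZMod p, (y, r) ∈ QQ x ↔
      ((a1 * x ^ 2 + a2 * y ^ 2) + (a1 * r ^ 2 + a2 * ((1 - y * r) / x) ^ 2) = 2 ∧
      ¬ IsSquare (((a1 * r ^ 2 + a2 * ((1 - y * r) / x) ^ 2) - (a1 * x ^ 2 + a2 * y ^ 2)) / 4 +
      ι * ((a1 * x * r - a2 * y * ((1 - y * r) / x)) / 2)))) :
    p ^ 2 ≤ 4 * ∑ x ∈ univ.erase (0 : ZMod p), (QQ x).card := by
  classical
  have hcard : Fintype.card (ZMod p) = p := ZMod.card p
  have hι0 : ι ≠ 0 := by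
    rintro rfl
    norm_num at hι
  have h40 : (4 : ZMod p) ≠ 0 := by
    have : (4 : ZMod p) = 2 * 2 := by norm_num
    rw [this]
    exact mul_ne_zero h20 h20
  let N : Finset (ZMod p) := univ.filter (fun a => ¬ IsSquare a)
  let U : ZMod p → ZMod p := fun w => 1 - w - 1 / w
  have hN0 : ∀ w ∈ N, w ≠ 0 := by
    rintro w hw rfl
    simp only [N, mem_filter, mem_univ, true_and] at hw
    exact hw IsSquare.zero
  have hU : ∀ w ∈ N, U w ≠ 0 := by
    intro w hw h
    have hw0 := hN0 w hw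
    simp only [U] at h
    field_simp at h
    apply h3
    refine ⟨ι * (2 * w - 1), ?_⟩
    linear_combination (-4) * h - (2 * w - 1) ^ 2 * hι
  let E : ZMod p → Finset (ZMod p × ZMod p) := fun w =>
    univ.filter (fun t => a1 * t.1 ^ 2 + a2 * t.2 ^ 2 = U w ∧ t.1 ≠ 0)
  have hE : ∀ w ∈ N, p - 1 ≤ (E w).card := by
    intro w hw
    have h4 := hR (U w) (hU w hw)
    have h5 : (univ : Finset (ZMod p × ZMod p)).filter
        (fun t => a1 * t.1 ^ 2 + a2 * t.2 ^ 2 = U w) ⊆
        E w ∪ (({0} : Finset (ZMod p)) ×ˢ (univ.filter fun y => y ^ 2 = U w / a2)) := by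
      rintro ⟨x, y⟩ h
      simp only [mem_filter, mem_univ, true_and] at h
      simp only [E, mem_union, mem_filter, mem_univ, true_and, mem_product, mem_singleton]
      by_cases hx : x = 0
      · right
        refine ⟨hx, ?_⟩
        rw [← h, hx]
        field_simp
        ring
      · exact Or.inl ⟨h, hx⟩
    have h6 := (Finset.card_le_card h5).trans (Finset.card_union_le _ _)
    rw [card_product, card_singleton, one_mul] at h6
    have h7 := card_sqrt_le (F := ZMod p) (U w / a2)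
    omega
  -- the injection
  have hinj : (N.sigma E).card ≤ ((univ.erase (0 : ZMod p)).sigma QQ).card := by
    let r : ZMod p → ZMod p → ZMod p → ZMod p := fun w x y =>
      ((w - 1 / w) / ι * x + a2 * y) / U w
    let s : ZMod p → ZMod p → ZMod p → ZMod p := fun w x y =>
      (a1 * x - (w - 1 / w) / ι * y) / U w
    have key : ∀ w x y : ZMod p, w ∈ N → a1 * x ^ 2 + a2 * y ^ 2 = U w → x ≠ 0 →
        ((a1 * x ^ 2 + a2 * y ^ 2) +
          (a1 * (r w x y) ^ 2 + a2 * ((1 - y * r w x y) / x) ^ 2) = 2) ∧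
        ((a1 * (r w x y) ^ 2 + a2 * ((1 - y * r w x y) / x) ^ 2) -
          (a1 * x ^ 2 + a2 * y ^ 2)) / 4 +
          ι * ((a1 * x * r w x y - a2 * y * ((1 - y * r w x y) / x)) / 2) = w := by
      intro w x y hw hxy hx
      have hw0 := hN0 w hw
      have hUw := hU w hw
      set B := (w - 1 / w) / ι with hB
      have hιB : ι * B = w - 1 / w := by rw [hB]; field_simp
      have hB2 : B ^ 2 = -(w - 1 / w) ^ 2 := by
        have : ι ^ 2 * B ^ 2 = (w - 1 / w) ^ 2 := by rw [← hιB]; ring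
        rw [hι] at this
        linear_combination - this
      have hr : U w * r w x y = B * x + a2 * y := by
        have h8 := div_mul_cancel₀ (B * x + a2 * y) hUw
        linear_combination h8
      have hs' : U w * s w x y = a1 * x - B * y := by
        have h8 := div_mul_cancel₀ (a1 * x - B * y) hUw
        linear_combination h8
      have e1 : x * s w x y + y * r w x y = 1 := by
        apply mul_left_cancel₀ hUw
        linear_combination x * hs' + y * hr + hxy
      have hs : (1 - y * r w x y) / x = s w x y := by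
        field_simp
        linear_combination - e1
      have e2 : a1 * x * r w x y - a2 * y * s w x y = B := by
        apply mul_left_cancel₀ hUw
        linear_combination (a1 * x) * hr - (a2 * y) * hs' + B * hxy
      have hUU : U w * (1 + w + 1 / w) = B ^ 2 - 3 := by
        rw [hB2]
        simp only [U]
        field_simp
        ring
      have e3 : a1 * (r w x y) ^ 2 + a2 * (s w x y) ^ 2 = 1 + w + 1 / w := by
        apply mul_left_cancel₀ hUw
        have h8 : U w * (a1 * (r w x y) ^ 2 + a2 * (s w x y) ^ 2) =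
            (a1 * x * r w x y - a2 * y * s w x y) ^ 2 +
            (a1 * a2) * (x * s w x y + y * r w x y) ^ 2 := by rw [← hxy]; ring
        rw [h8, e1, e2, haa, hUU]
        ring
      rw [hs, e3, hxy]
      refine ⟨by simp only [U]; ring, ?_⟩
      rw [e2]
      have h9 : ι * (B / 2) = (w - 1 / w) / 2 := by rw [← hιB]; ring
      rw [h9]
      simp only [U]
      field_simp
      ring
    apply Finset.card_le_card_of_injOn
      (fun t : (Σ _ : ZMod p, ZMod p × ZMod p) =>
        (⟨t.2.1, (t.2.2, r t.1 t.2.1 t.2.2)⟩ : Σ _ : ZMod p, ZMod p × ZMod p))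
    · rintro ⟨w, x, y⟩ ht
      simp only [coe_sigma, Set.mem_sigma_iff, mem_coe, E, mem_filter, mem_univ, true_and] at ht
      obtain ⟨hw, hxy, hx⟩ := ht
      obtain ⟨k1, k2⟩ := key w x y hw hxy hx
      rw [mem_coe, mem_sigma]
      refine ⟨mem_erase.2 ⟨hx, mem_univ _⟩, ?_⟩
      rw [hQQ]
      refine ⟨k1, ?_⟩
      rw [k2]
      simp only [N, mem_filter, mem_univ, true_and] at hw
      exact hw
    · rintro ⟨w, x, y⟩ ht ⟨w', x', y'⟩ ht' heq
      simp only [coe_sigma, Set.mem_sigma_iff, mem_coe, E, mem_filter, mem_univ, true_and] at ht ht'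
      obtain ⟨hw, hxy, hx⟩ := ht
      obtain ⟨hw', hxy', hx'⟩ := ht'
      simp only [Sigma.mk.injEq, heq_eq_eq, Prod.mk.injEq] at heq
      obtain ⟨rfl, rfl, hrr⟩ := heq
      have k1 := (key w x y hw hxy hx).2
      have k2 := (key w' x y hw' hxy' hx').2
      rw [← hrr] at k2
      have : w = w' := by rw [← k1, ← k2]
      rw [this]
  rw [card_sigma, card_sigma] at hinj
  have hNc := card_nonsq (F := ZMod p) 3 h3
  rw [hcard] at hNc
  have h10 : N.card * (p - 1) ≤ ∑ w ∈ N, (E w).card := by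
    have := Finset.card_nsmul_le_sum N (fun w => (E w).card) (p - 1) hE
    simpa using this
  obtain ⟨k, rfl⟩ : ∃ k, p = k + 5 := ⟨p - 5, by omega⟩
  have h11 : k + 5 - 1 = k + 4 := by omega
  rw [h11] at h10 hNc
  have h12 : (k + 4) * (k + 4) ≤ 2 * ∑ x ∈ univ.erase (0 : ZMod (k + 5)), (QQ x).card := by
    calc (k + 4) * (k + 4) ≤ (2 * N.card) * (k + 4) := Nat.mul_le_mul_right _ hNc
      _ = 2 * (N.card * (k + 4)) := by ring
      _ ≤ 2 * ∑ x ∈ univ.erase (0 : ZMod (k + 5)), (QQ x).card :=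
        Nat.mul_le_mul_left _ (h10.trans hinj)
  nlinarith

/-- Task LD5 of project PA. -/
theorem ld5 : Pool.Agent.Y346.PA.S_LD5 := by
  classical
  intro p _ hp a1 a2 ha ι hι
  have hp5 : 5 ≤ p := by omega
  have h3 := three_nonsq p hp
  have h20 : (2 : ZMod p) ≠ 0 := by
    have : ((2 : ℕ) : ZMod p) ≠ 0 := by
      rw [Ne, ZMod.natCast_eq_zero_iff]
      intro h
      have := Nat.le_of_dvd (by norm_num) h
      omega
    exact_mod_cast this
  have h30 : (3 : ZMod p) ≠ 0 := by
    intro h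
    apply h3
    rw [h]
    exact IsSquare.zero
  have hcard : Fintype.card (ZMod p) = p := ZMod.card p
  have ha2 : (a2 : ZMod p) ≠ 0 := by
    rcases ha with ⟨-, rfl⟩ | ⟨-, rfl⟩
    · push_cast
      exact neg_ne_zero.2 h30
    · push_cast
      exact neg_ne_zero.2 one_ne_zero
  have haa : (a1 : ZMod p) * a2 = -3 := by
    rcases ha with ⟨rfl, rfl⟩ | ⟨rfl, rfl⟩ <;> push_cast <;> ring
  have hR : ∀ u : ZMod p, u ≠ 0 → p + 1 ≤ ((univ : Finset (ZMod p × ZMod p)).filter
      (fun t => (a1 : ZMod p) * t.1 ^ 2 + a2 * t.2 ^ 2 = u)).card := by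
    intro u hu
    rcases ha with ⟨rfl, rfl⟩ | ⟨rfl, rfl⟩
    · have h4 := card_norm (F := ZMod p) 3 h3 h20 u hu
      rw [hcard] at h4
      refine h4.trans (Finset.card_le_card ?_)
      intro t ht
      simp only [mem_filter, mem_univ, true_and] at ht ⊢
      push_cast
      linear_combination ht
    · have h4 := card_norm (F := ZMod p) 3 h3 h20 (-u) (neg_ne_zero.2 hu)
      rw [hcard] at h4
      refine h4.trans (Finset.card_le_card_of_injOn Prod.swap ?_ ?_)
      · rintro ⟨x, y⟩ ht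
        simp only [coe_filter, mem_univ, true_and, Set.mem_ofPred_eq, Prod.swap] at ht ⊢
        push_cast
        linear_combination - ht
      · exact Prod.swap_injective.injOn
  refine ⟨fun x hx => ?_, ?_⟩
  · exact qt_upper p (a1 : ZMod p) (a2 : ZMod p) ha2 _ x hx
  · refine qt_lower p hp5 (a1 : ZMod p) (a2 : ZMod p) ι haa hι h3 h20 ha2 hR _ ?_
    intro x y r
    simp only [Pool.Agent.Y346.PA.QT, mem_filter, mem_univ, true_and]

end Pool.Agent.Y241.PA
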