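import Pool.Agent.Y346.PA.Stm

set_option autoImplicit false

namespace Pool.Agent.Y241.PA

open Finset

/-- the primitive fourth root of unity in the Gaussian integers -/
theorem prim_i : IsPrimitiveRoot (⟨0, 1⟩ : GaussianInt) 4 := by
  have h : (⟨0, 1⟩ : GaussianInt) ^ 2 = -1 := by
    rw [sq]
    ext <;> simp
  have h4 : (⟨0, 1⟩ : GaussianInt) ^ 4 = 1 := by
    rw [show (4 : ℕ) = 2 * 2 by norm_num, pow_mul, h]
    norm_num
  refine ⟨h4, fun l hl => ?_⟩
  -- reduce modulo 4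
  have h1 : (⟨0, 1⟩ : GaussianInt) ^ (l % 4) = 1 := by
    have h2 : (⟨0, 1⟩ : GaussianInt) ^ l = (⟨0, 1⟩ : GaussianInt) ^ (l % 4) := by
      conv_lhs => rw [← Nat.mod_add_div l 4, pow_add, pow_mul, h4, one_pow, mul_one]
    rw [← h2, hl]
  have h5 : l % 4 < 4 := Nat.mod_lt _ (by norm_num)
  interval_cases hm : l % 4
  · exact Nat.dvd_of_mod_eq_zero hm
  · exfalso
    rw [pow_one] at h1
    have := congrArg Zsqrtd.re h1
    simp at this
  · exfalso
    rw [h] at h1
    have := congrArg Zsqrtd.re h1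
    simp at this
  · exfalso
    rw [show (3 : ℕ) = 2 + 1 by norm_num, pow_succ, h] at h1
    have := congrArg Zsqrtd.re h1
    simp at this

/-- the Jacobi sum of a quartic character -/
theorem exists_char (q : ℕ) [Fact q.Prime] (hq : q % 4 = 1) :
    ∃ χ : MulChar (ZMod q) GaussianInt, orderOf χ = 4 ∧
      (jacobiSum χ χ).re ^ 2 + (jacobiSum χ χ).im ^ 2 = q ∧ Even (jacobiSum χ χ).im := by
  have hcard : Fintype.card (ZMod q) = q := ZMod.card q
  have h4 : 4 ∣ Fintype.card (ZMod q) - 1 := by rw [hcard]; omega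
  obtain ⟨χ, hχ⟩ := MulChar.exists_mulChar_orderOf (ZMod q) h4 prim_i
  have hχ4 : χ ^ 4 = 1 := by rw [← hχ, pow_orderOf_eq_one]
  refine ⟨χ, hχ, ?_, ?_⟩
  · -- the absolute value
    let χc : MulChar (ZMod q) ℂ := χ.ringHomComp GaussianInt.toComplex
    have hχ1 : χc ≠ 1 := by
      rw [Ne, MulChar.ringHomComp_eq_one_iff GaussianInt.toComplex_injective]
      intro h
      rw [h, orderOf_one] at hχ
      norm_num at hχ
    have hχ2 : χc * χc ≠ 1 := by
      rw [← MulChar.ringHomComp_mul, Ne,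
        MulChar.ringHomComp_eq_one_iff GaussianInt.toComplex_injective]
      intro h
      have := orderOf_dvd_of_pow_eq_one (x := χ) (n := 2) (by rw [sq, h])
      rw [hχ] at this
      norm_num at this
    have hch : ringChar ℂ ≠ ringChar (ZMod q) := by
      rw [ZMod.ringChar_zmod_n, ringChar.eq_zero]
      exact (Fact.out : q.Prime).ne_zero.symm
    have h5 := jacobiSum_mul_jacobiSum_inv hch hχ1 hχ1 hχ2
    have h6 : jacobiSum χc⁻¹ χc⁻¹ = star (jacobiSum χc χc) := by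
      simp only [jacobiSum, star_sum, star_mul', MulChar.star_apply']
    have h7 : jacobiSum χc χc = GaussianInt.toComplex (jacobiSum χ χ) :=
      jacobiSum_ringHomComp _ _ _
    rw [h6, h7, hcard, GaussianInt.toComplex_def₂] at h5
    have h8 := congrArg Complex.re h5
    simp only [Complex.mul_re, Complex.star_def, Complex.conj_re, Complex.conj_im,
      Complex.natCast_re] at h8
    have h9 : (((jacobiSum χ χ).re ^ 2 + (jacobiSum χ χ).im ^ 2 : ℤ) : ℝ) = ((q : ℤ) : ℝ) := by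
      push_cast
      rw [← h8]
      ring
    exact_mod_cast h9
  · obtain ⟨z, hz, hJ⟩ := exists_jacobiSum_eq_neg_one_add (by norm_num : 2 < 4) hχ4 hχ4 h4 prim_i
    rw [hJ]
    have : ((⟨0, 1⟩ : GaussianInt) - 1) ^ 2 = ⟨0, -2⟩ := by
      rw [sq]
      ext <;> simp
    rw [this]
    refine ⟨-z.re, ?_⟩
    simp
    ring

/-- a residue of odd order is a fourth power -/
theorem fourth_power (q : ℕ) [Fact q.Prime] (a : (ZMod q)ˣ) (h : ∀ j : ℕ, (a : ZMod q) ^ j ≠ -1) :
    ∃ b : (ZMod q)ˣ, a = b ^ 4 := by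
  have hpos : 0 < orderOf a := orderOf_pos a
  have hodd : orderOf a % 2 = 1 := by
    by_contra hcon
    obtain ⟨l, hl⟩ : ∃ l, orderOf a = 2 * l := ⟨orderOf a / 2, by omega⟩
    have h1 : ((a : ZMod q) ^ l) ^ 2 = 1 := by
      rw [← pow_mul, mul_comm, ← hl]
      rw [← Units.val_pow_eq_pow_val, pow_orderOf_eq_one, Units.val_one]
    rcases (show (a : ZMod q) ^ l = 1 ∨ (a : ZMod q) ^ l = -1 from (sq_eq_one_iff.1 h1)) with h2 | h2
    · have h3 : a ^ l = 1 := by
        ext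
        simpa using h2
      have h4 := Nat.le_of_dvd (by omega) (orderOf_dvd_of_pow_eq_one h3)
      omega
    · exact h l h2
  obtain ⟨k, hk⟩ : ∃ k, orderOf a + 1 = 2 * k := ⟨(orderOf a + 1) / 2, by omega⟩
  have h1 : a ^ (2 * k) = a := by
    rw [← hk, pow_succ, pow_orderOf_eq_one, one_mul]
  refine ⟨a ^ (k * k), ?_⟩
  have h2 : (a ^ (k * k)) ^ 4 = (a ^ (2 * k)) ^ (2 * k) := by
    rw [← pow_mul, ← pow_mul]
    congr 1
    ring
  rw [h2, h1, h1]

theorem qr_core (q p : ℕ) [Fact q.Prime] [Fact p.Prime] (hq : q % 4 = 1) (hp : p % 4 = 1)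
    (χ : MulChar (ZMod q) GaussianInt) (hχ : orderOf χ = 4) (hq0 : (q : ZMod p) ≠ 0)
    (hpq : (p : ZMod q) ≠ 0)
    (hN : (jacobiSum χ χ).re ^ 2 + (jacobiSum χ χ).im ^ 2 = q)
    (hj : ∀ j : ℕ, (p : ZMod q) ^ j ≠ -1) (ι t : ZMod p) (hι : ι ^ 2 = -1) (ht : t ^ 2 * q = 1)
    (F : Type) [Field F] [CharP F p] (c : ZMod p →+* F) (ψ : AddChar (ZMod q) F)
    (hψ : ψ.IsPrimitive) :
    IsSquare (t * ((jacobiSum χ χ).re + ι * (jacobiSum χ χ).im)) := by
  have hcard : Fintype.card (ZMod q) = q := ZMod.card q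
  have ht0 : t ≠ 0 := by
    rintro rfl
    norm_num at ht
  have hcinj : Function.Injective c := c.injective
  have hp2 : p ≠ 2 := by rintro rfl; norm_num at hp
  have h2F : (-1 : F) ≠ 1 := by
    intro h
    have h1 : ((2 : ℕ) : F) = 0 := by
      push_cast
      linear_combination - h
    rw [CharP.cast_eq_zero_iff F p] at h1
    have := (Nat.dvd_prime Nat.prime_two).1 h1
    rcases this with h2 | h2
    · exact (Fact.out : p.Prime).ne_one h2
    · exact hp2 h2
  let φ : GaussianInt →+* F := Zsqrtd.lift ⟨c ι, by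
    rw [← sq, ← map_pow, hι, map_neg, map_one]
    push_cast
    rfl⟩
  let χ' : MulChar (ZMod q) F := χ.ringHomComp φ
  have hχ'apply : ∀ x, χ' x = φ (χ x) := fun x => rfl
  have hχ4 : χ ^ 4 = 1 := by rw [← hχ, pow_orderOf_eq_one]
  have hχ'4 : χ' ^ 4 = 1 := by
    rw [MulChar.ringHomComp_pow, hχ4, MulChar.ringHomComp_one]
  have hunit4 : ∀ x : ZMod q, x ≠ 0 → χ' x ^ 4 = 1 := by
    intro x hx
    rw [← MulChar.pow_apply' _ (by norm_num), hχ'4, MulChar.one_apply (isUnit_iff_ne_zero.2 hx)]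
  have hχ2ne : χ ^ 2 ≠ 1 := by
    intro h
    have := orderOf_dvd_of_pow_eq_one h
    rw [hχ] at this
    norm_num at this
  have hχ'2 : χ' * χ' ≠ 1 := by
    intro h
    apply hχ2ne
    refine MulChar.ext fun x => ?_
    rw [MulChar.pow_apply_coe]
    have h1 : χ (x : ZMod q) ^ 4 = 1 := by
      rw [← MulChar.pow_apply_coe, hχ4, MulChar.one_apply_coe]
    have h2 : (χ (x : ZMod q) ^ 2) ^ 2 = 1 := by rw [← pow_mul]; exact h1
    rcases sq_eq_one_iff.1 h2 with h3 | h3
    · rw [h3, MulChar.one_apply_coe]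
    · exfalso
      have h4 : (χ' * χ') (x : ZMod q) = 1 := by rw [h, MulChar.one_apply_coe]
      rw [MulChar.mul_apply, hχ'apply, ← map_mul, ← sq, h3, map_neg, map_one] at h4
      exact h2F h4
  have hχ'1 : χ' ≠ 1 := by
    intro h
    apply hχ'2
    rw [h, one_mul]
  have hquad : (χ' * χ').IsQuadratic := by
    intro x
    by_cases hx : x = 0
    · left
      rw [hx, MulChar.map_zero]
    · right
      rw [MulChar.mul_apply]
      apply sq_eq_one_iff.1
      rw [← hunit4 x hx]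
      ring
  have hm1 : (χ' * χ') (-1) = 1 := by
    obtain ⟨c0, hc0⟩ : IsSquare (-1 : ZMod q) := ZMod.exists_sq_eq_neg_one_iff.2 (by omega)
    have hc00 : c0 ≠ 0 := by
      rintro rfl
      norm_num at hc0
    rw [MulChar.mul_apply, hc0, map_mul, ← hunit4 c0 hc00]
    ring
  set G := gaussSum χ' ψ with hG
  set G2 := gaussSum (χ' * χ') ψ with hG2
  have hG2sq : G2 ^ 2 = q := by
    rw [hG2, gaussSum_sq hχ'2 hquad hψ, hm1, one_mul, hcard]
  have hJ : jacobiSum χ' χ' = c ((jacobiSum χ χ).re + ι * (jacobiSum χ χ).im) := by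
    rw [jacobiSum_ringHomComp]
    change ((jacobiSum χ χ).re : F) + ((jacobiSum χ χ).im : F) * c ι = _
    rw [map_add, map_mul, map_intCast, map_intCast]
    ring
  have hGJ : G2 * c ((jacobiSum χ χ).re + ι * (jacobiSum χ χ).im) = G ^ 2 := by
    rw [← hJ, hG2, jacobiSum_mul_nontrivial hχ'2, sq]
  have hqF : (Fintype.card (ZMod q) : F) ≠ 0 := by
    rw [hcard]
    intro h
    apply hq0
    apply hcinj
    rw [map_natCast, h, map_zero]
  have hG0 : G ≠ 0 := gaussSum_ne_zero_of_nontrivial hqF hχ'1 hψ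
  -- Frobenius
  obtain ⟨b, hb⟩ := fourth_power q (Units.mk0 (p : ZMod q) hpq) hj
  have hχp : χ' (p : ZMod q) = 1 := by
    have h1 : (p : ZMod q) = (b : ZMod q) ^ 4 := by
      have := congrArg Units.val hb
      simpa using this
    rw [h1, map_pow]
    exact hunit4 _ b.ne_zero
  have hGp : G ^ p = G := by
    obtain ⟨k, hk⟩ : ∃ k, p = 4 * k + 1 := ⟨p / 4, by omega⟩
    have h1 : χ' ^ p = χ' := by
      conv_lhs => rw [hk]
      rw [pow_succ, pow_mul, hχ'4, one_pow, one_mul]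
    rw [hG, gaussSum_frob p χ' ψ, h1, AddChar.pow_mulShift]
    have h2 := gaussSum_mulShift χ' ψ (Units.mk0 (p : ZMod q) hpq)
    rw [Units.val_mk0, hχp, one_mul] at h2
    exact h2
  have hppos : 0 < p := (Fact.out : p.Prime).pos
  have hGp1 : G ^ (p - 1) = 1 := by
    apply mul_left_cancel₀ hG0
    rw [mul_one, ← pow_succ', Nat.sub_add_cancel hppos, hGp]
  -- the element
  have hne : t * ((jacobiSum χ χ).re + ι * (jacobiSum χ χ).im) ≠ 0 := by
    apply mul_ne_zero ht0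
    intro h
    apply hq0
    have h1 : ((jacobiSum χ χ).re : ZMod p) ^ 2 + ((jacobiSum χ χ).im : ZMod p) ^ 2 = q := by
      have := congrArg (Int.cast : ℤ → ZMod p) hN
      push_cast at this
      exact this
    rw [← h1]
    linear_combination (((jacobiSum χ χ).re : ZMod p) - ι * (jacobiSum χ χ).im) * h +
      ((jacobiSum χ χ).im : ZMod p) ^ 2 * hι
  rw [ZMod.euler_criterion p hne]
  apply hcinj
  rw [map_one, map_pow, map_mul]
  have hT : (c t * G2) ^ 2 = 1 := by
    rw [mul_pow, hG2sq, ← map_pow]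
    have := congrArg c ht
    rw [map_mul, map_natCast, map_one] at this
    exact this
  have hcT : c t ≠ 0 := by
    rw [Ne, map_eq_zero]
    exact ht0
  have hctp : c t ^ (p - 1) = 1 := by
    rw [← map_pow, ZMod.pow_card_sub_one_eq_one ht0, map_one]
  obtain ⟨k, hk⟩ : ∃ k, p = 4 * k + 1 := ⟨p / 4, by omega⟩
  have hp2' : p / 2 = 2 * k := by omega
  have hpm : p - 1 = 2 * (2 * k) := by omega
  have hkey : (c t * c ((jacobiSum χ χ).re + ι * (jacobiSum χ χ).im)) ^ 2 =
      ((c t * G) ^ 2) ^ 2 := by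
    have h1 : (c t * G2) * (c t * c ((jacobiSum χ χ).re + ι * (jacobiSum χ χ).im)) =
        (c t * G) ^ 2 := by
      rw [mul_pow, ← hGJ]
      ring
    rw [← h1, mul_pow (c t * G2), hT, one_mul]
  rw [hp2', pow_mul, hkey, ← pow_mul, ← pow_mul]
  rw [← hpm, mul_pow, hctp, hGp1, one_mul]

theorem qr_main (q p : ℕ) [Fact q.Prime] [Fact p.Prime] (hq : q % 4 = 1) (hp : p % 4 = 1)
    (hpq : p ≠ q) (χ : MulChar (ZMod q) GaussianInt) (hχ : orderOf χ = 4)
    (hN : (jacobiSum χ χ).re ^ 2 + (jacobiSum χ χ).im ^ 2 = q)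
    (hj : ∀ j : ℕ, (p : ZMod q) ^ j ≠ -1) (ι t : ZMod p) (hι : ι ^ 2 = -1) (ht : t ^ 2 * q = 1) :
    IsSquare (t * ((jacobiSum χ χ).re + ι * (jacobiSum χ χ).im)) := by
  have hq0 : (q : ZMod p) ≠ 0 := by
    intro h
    rw [h, mul_zero] at ht
    exact zero_ne_one ht
  have hpq0 : (p : ZMod q) ≠ 0 := by
    rw [Ne, ZMod.natCast_eq_zero_iff]
    intro h
    have := (Nat.prime_dvd_prime_iff_eq (Fact.out : q.Prime) (Fact.out : p.Prime)).1 h
    exact hpq this.symm
  have hqp : 0 < q := (Fact.out : q.Prime).pos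
  let ψ := AddChar.primitiveZModChar ⟨q, hqp⟩ (ZMod p) hq0
  let F := CyclotomicField ψ.n (ZMod p)
  have : CharP F p := charP_of_injective_algebraMap (algebraMap (ZMod p) F).injective p
  exact qr_core q p hq hp χ hχ hq0 hpq0 hN hj ι t hι ht F (algebraMap (ZMod p) F) ψ.char ψ.prim

/-- Task QR of project PA. -/
theorem qr : Pool.Agent.Y346.PA.S_QR := by
  intro q hqp hq
  have : Fact q.Prime := ⟨hqp⟩
  obtain ⟨χ, hχ, hN, hev⟩ := exists_char q hq
  refine ⟨(jacobiSum χ χ).re, (jacobiSum χ χ).im, hN, hev, ?_⟩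
  intro p hpp hp hpq hj ι t hι ht
  have : Fact p.Prime := ⟨hpp⟩
  exact qr_main q p hq hp hpq χ hχ hN hj ι t hι ht

end Pool.Agent.Y241.PA
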