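import Mathlib

set_option autoImplicit false

namespace Pool.Agent.Y241.PA

/-- Thue's lemma -/
theorem thue (u : ℤ) (hu : 0 < u) (c : ℤ) : ∃ x y : ℤ, (x ≠ 0 ∨ y ≠ 0) ∧ x ^ 2 ≤ u ∧ y ^ 2 ≤ u ∧
    u ∣ x - c * y := by
  obtain ⟨N, rfl⟩ : ∃ N : ℕ, u = N := ⟨u.toNat, by omega⟩
  have hN : 0 < N := by exact_mod_cast hu
  set m := Nat.sqrt N with hm
  have hlt : N < (m + 1) * (m + 1) := Nat.lt_succ_sqrt N
  have hle : m * m ≤ N := Nat.sqrt_le N
  let S : Finset (ℕ × ℕ) := Finset.range (m + 1) ×ˢ Finset.range (m + 1)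
  let f : ℕ × ℕ → ℕ := fun t => (((t.1 : ℤ) - c * t.2) % N).toNat
  have hmaps : ∀ t ∈ S, f t ∈ Finset.range N := by
    intro t _
    simp only [f, Finset.mem_range]
    have h1 := Int.emod_nonneg ((t.1 : ℤ) - c * t.2) (show (N : ℤ) ≠ 0 by omega)
    have h2 := Int.emod_lt_of_pos ((t.1 : ℤ) - c * t.2) (show (0 : ℤ) < N by omega)
    omega
  obtain ⟨t, ht, t', ht', hne, heq⟩ := Finset.exists_ne_map_eq_of_card_lt_of_maps_to
    (by simp only [S, Finset.card_product, Finset.card_range]; exact hlt) hmaps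
  simp only [S, Finset.mem_product, Finset.mem_range] at ht ht'
  have hmod : ((t.1 : ℤ) - c * t.2) % N = ((t'.1 : ℤ) - c * t'.2) % N := by
    have h1 := Int.emod_nonneg ((t.1 : ℤ) - c * t.2) (show (N : ℤ) ≠ 0 by omega)
    have h2 := Int.emod_nonneg ((t'.1 : ℤ) - c * t'.2) (show (N : ℤ) ≠ 0 by omega)
    have h3 : (((t.1 : ℤ) - c * t.2) % N).toNat = (((t'.1 : ℤ) - c * t'.2) % N).toNat := heq
    omega
  have hsq : ∀ a b : ℕ, a < m + 1 → b < m + 1 → ((a : ℤ) - b) ^ 2 ≤ N := by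
    intro a b ha hb
    have h1 : |(a : ℤ) - b| ≤ m := by
      rw [abs_le]
      constructor <;> omega
    have h2 : ((a : ℤ) - b) ^ 2 ≤ (m : ℤ) ^ 2 := by
      rw [← sq_abs]
      exact pow_le_pow_left₀ (abs_nonneg _) h1 2
    have h3 : (m : ℤ) ^ 2 ≤ N := by
      rw [sq]
      exact_mod_cast hle
    exact h2.trans h3
  refine ⟨(t.1 : ℤ) - t'.1, (t.2 : ℤ) - t'.2, ?_, hsq _ _ ht.1 ht'.1, hsq _ _ ht.2 ht'.2, ?_⟩
  · by_contra hcon
    push Not at hcon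
    apply hne
    ext
    · omega
    · omega
  · have h1 := Int.emod_emod_of_dvd
    have h2 : (N : ℤ) ∣ ((t.1 : ℤ) - c * t.2) - ((t'.1 : ℤ) - c * t'.2) :=
      Int.ModEq.dvd (Int.ModEq.symm hmod)
    have h3 : (t.1 : ℤ) - t'.1 - c * ((t.2 : ℤ) - t'.2) =
      ((t.1 : ℤ) - c * t.2) - ((t'.1 : ℤ) - c * t'.2) := by ring
    rw [h3]
    exact h2

/-- finish: from a representation to all data -/
theorem finish (n A B u a1 a2 x y : ℤ) (hn : 1 ≤ n) (hAB : A ^ 2 + B ^ 2 = n ^ 2 + n + 1)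
    (hu : u = 2 * n + 1 - 2 * A) (hu0 : 0 < u) (hA : -n ≤ A)
    (ha : (a1 = 1 ∧ a2 = -3) ∨ (a1 = 3 ∧ a2 = -1)) (hx : x ≠ 0)
    (hrep : a1 * x ^ 2 + a2 * y ^ 2 = u) (h1 : u ∣ 2 * B * x + a2 * y)
    (h2 : u ∣ a1 * x - 2 * B * y) (hxu : x ^ 2 ≤ 4 * u) :
    ∃ x y r s : ℤ, 0 < x ∧ x * s + y * r = 1 ∧
    a1 * x ^ 2 + a2 * y ^ 2 = 2 * n + 1 - 2 * A ∧ a1 * r ^ 2 + a2 * s ^ 2 = 2 * n + 1 + 2 * A ∧
    a1 * x * r - a2 * y * s = 2 * B ∧ |y| ≤ 2 * x ∧ x ^ 2 ≤ 400 * n ∧ r ^ 2 ≤ 400 * n := by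
  -- reduce to `x > 0`
  wlog hx0 : 0 < x generalizing x y
  · refine this (-x) (-y) (by simpa using hx) (by linear_combination hrep) ?_ ?_
      (by simpa using hxu) (by omega)
    · have : 2 * B * -x + a2 * -y = -(2 * B * x + a2 * y) := by ring
      rw [this]; exact (dvd_neg).2 h1
    · have : a1 * -x - 2 * B * -y = -(a1 * x - 2 * B * y) := by ring
      rw [this]; exact (dvd_neg).2 h2
  obtain ⟨r, hr⟩ := h1
  obtain ⟨s, hs⟩ := h2
  have haa : a1 * a2 = -3 := by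
    rcases ha with ⟨rfl, rfl⟩ | ⟨rfl, rfl⟩ <;> norm_num
  have huu' : u * (2 * n + 1 + 2 * A) = 4 * B ^ 2 - 3 := by rw [hu]; linear_combination (-4) * hAB
  have e1 : x * s + y * r = 1 := by
    apply mul_left_cancel₀ (ne_of_gt hu0)
    linear_combination (-x) * hs - y * hr + hrep
  have e2 : a1 * x * r - a2 * y * s = 2 * B := by
    apply mul_left_cancel₀ (ne_of_gt hu0)
    linear_combination (-a1 * x) * hr + (a2 * y) * hs + (2 * B) * hrep
  have e3 : a1 * r ^ 2 + a2 * s ^ 2 = 2 * n + 1 + 2 * A := by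
    apply mul_left_cancel₀ (ne_of_gt hu0)
    have h3 : u * (a1 * r ^ 2 + a2 * s ^ 2) = (a1 * x * r - a2 * y * s) ^ 2 +
        (a1 * a2) * (x * s + y * r) ^ 2 := by rw [← hrep]; ring
    rw [h3, e1, e2, haa, huu']
    ring
  have hu5 : u ≤ 5 * n := by omega
  have hy2 : (a2 * y) ^ 2 ≤ 12 * u := by
    rcases ha with ⟨rfl, rfl⟩ | ⟨rfl, rfl⟩
    · nlinarith [sq_nonneg y]
    · nlinarith [sq_nonneg y]
  refine ⟨x, y, r, s, hx0, e1, by rw [hrep, hu], e3, e2, ?_, by nlinarith, ?_⟩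
  · apply abs_le_of_sq_le_sq _ (by omega)
    rcases ha with ⟨rfl, rfl⟩ | ⟨rfl, rfl⟩
    · nlinarith [sq_nonneg y]
    · nlinarith [sq_nonneg y]
  · -- `r^2 u^2 ≤ 2 (4 B^2 x^2 + (a2 y)^2)`
    have h3 : (u * r) ^ 2 ≤ 2 * ((2 * B * x) ^ 2 + (a2 * y) ^ 2) := by
      rw [← hr]
      nlinarith [sq_nonneg (2 * B * x - a2 * y)]
    have h4 : (2 * B * x) ^ 2 ≤ (u * (2 * n + 1 + 2 * A) + 3) * (4 * u) := by
      have : (2 * B * x) ^ 2 = (u * (2 * n + 1 + 2 * A) + 3) * x ^ 2 := by rw [huu']; ring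
      rw [this]
      apply mul_le_mul_of_nonneg_left hxu
      nlinarith [sq_nonneg B]
    have h5 : u ^ 2 * r ^ 2 ≤ u ^ 2 * (8 * (2 * n + 1 + 2 * A) + 48) := by
      have h6 : u ≤ u ^ 2 := by nlinarith
      nlinarith
    have h6 := le_of_mul_le_mul_left h5 (by positivity)
    nlinarith

theorem th_aux (n A B : ℤ) (hn : 1 ≤ n) (hAB : A ^ 2 + B ^ 2 = n ^ 2 + n + 1) :
  ∃ a1 a2 x y r s : ℤ, ((a1 = 1 ∧ a2 = -3) ∨ (a1 = 3 ∧ a2 = -1)) ∧ 0 < x ∧ x * s + y * r = 1 ∧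
    a1 * x ^ 2 + a2 * y ^ 2 = 2 * n + 1 - 2 * A ∧ a1 * r ^ 2 + a2 * s ^ 2 = 2 * n + 1 + 2 * A ∧
    a1 * x * r - a2 * y * s = 2 * B ∧ |y| ≤ 2 * x ∧ x ^ 2 ≤ 400 * n ∧ r ^ 2 ≤ 400 * n := by
  have hA : A ≤ n := by nlinarith [sq_nonneg B]
  have hA' : -n ≤ A := by nlinarith [sq_nonneg B]
  obtain ⟨u, hu⟩ : ∃ u, u = 2 * n + 1 - 2 * A := ⟨_, rfl⟩
  have hu0 : 0 < u := by omega
  have hodd : u % 2 = 1 := by omega
  have huu' : u * (2 * n + 1 + 2 * A) = 4 * B ^ 2 - 3 := by rw [hu]; linear_combination (-4) * hAB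
  have hud : u ∣ 4 * B ^ 2 - 3 := ⟨_, huu'.symm⟩
  obtain ⟨x0, y0, h0, hx0, hy0, hd⟩ := thue u hu0 (2 * B)
  have hd2 : u ∣ 3 * y0 - 2 * B * x0 := by
    have h1 : 3 * y0 - 2 * B * x0 = -(2 * B) * (x0 - 2 * B * y0) + (-y0) * (4 * B ^ 2 - 3) := by ring
    rw [h1]
    exact dvd_add (hd.mul_left _) (hud.mul_left _)
  obtain ⟨k, hk⟩ : u ∣ x0 ^ 2 - 3 * y0 ^ 2 := by
    have h1 : x0 ^ 2 - 3 * y0 ^ 2 = x0 * (x0 - 2 * B * y0) + (-y0) * (3 * y0 - 2 * B * x0) := by ring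
    rw [h1]
    exact dvd_add (hd.mul_left _) (hd2.mul_left _)
  have hk1 : k ≤ 1 := by nlinarith [sq_nonneg y0]
  have hk3 : -3 ≤ k := by nlinarith [sq_nonneg x0]
  have hk0 : k ≠ 0 := by
    rintro rfl
    rw [mul_zero] at hk
    have h3 : Irrational (Real.sqrt 3) := Nat.Prime.irrational_sqrt (by norm_num : Nat.Prime 3)
    by_cases hy : y0 = 0
    · rw [hy] at hk
      have : x0 = 0 := by
        have : x0 ^ 2 = 0 := by linarith
        exact pow_eq_zero_iff (two_ne_zero) |>.1 this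
      rcases h0 with h | h
      · exact h this
      · exact h hy
    · apply h3
      refine ⟨|(x0 : ℚ) / y0|, ?_⟩
      have hyR : (y0 : ℝ) ≠ 0 := by exact_mod_cast hy
      have h4 : ((x0 : ℝ) / y0) ^ 2 = 3 := by
        rw [div_pow, div_eq_iff (pow_ne_zero 2 hyR)]
        have : (x0 : ℝ) ^ 2 - 3 * (y0 : ℝ) ^ 2 = 0 := by exact_mod_cast hk
        linarith
      push_cast
      rw [← h4, Real.sqrt_sq_eq_abs]
  have hcase : k = 1 ∨ k = -1 ∨ k = -2 ∨ k = -3 := by omega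
  rcases hcase with rfl | rfl | rfl | rfl
  · -- k = 1
    obtain ⟨x, y, r, s, hh⟩ := finish n A B u 1 (-3) x0 y0 hn hAB hu hu0 hA' (Or.inl ⟨rfl, rfl⟩)
      (by rintro rfl; nlinarith [sq_nonneg y0]) (by linear_combination hk)
      (by have := (dvd_neg (a := u)).2 hd2; ring_nf at this ⊢; exact this)
      (by simpa using hd) (by nlinarith)
    exact ⟨1, -3, x, y, r, s, Or.inl ⟨rfl, rfl⟩, hh⟩
  · -- k = -1
    obtain ⟨x, y, r, s, hh⟩ := finish n A B u 3 (-1) y0 x0 hn hAB hu hu0 hA' (Or.inr ⟨rfl, rfl⟩)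
      (by rintro rfl; nlinarith [sq_nonneg x0]) (by linear_combination - hk)
      (by have := (dvd_neg (a := u)).2 hd; ring_nf at this ⊢; exact this)
      (by simpa using hd2) (by nlinarith)
    exact ⟨3, -1, x, y, r, s, Or.inr ⟨rfl, rfl⟩, hh⟩
  · -- k = -2
    have hx0o : x0 % 2 = 1 ∧ y0 % 2 = 1 := by
      have e1 : (x0 ^ 2 - 3 * y0 ^ 2) % 4 = 2 := by rw [hk]; omega
      rcases Int.emod_two_eq_zero_or_one x0 with hx | hx <;>
        rcases Int.emod_two_eq_zero_or_one y0 with hy | hy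
      · exfalso
        obtain ⟨a, rfl⟩ : ∃ a, x0 = 2 * a := ⟨x0 / 2, by omega⟩
        obtain ⟨b, rfl⟩ : ∃ b, y0 = 2 * b := ⟨y0 / 2, by omega⟩
        ring_nf at e1
        omega
      · exfalso
        obtain ⟨a, rfl⟩ : ∃ a, x0 = 2 * a := ⟨x0 / 2, by omega⟩
        obtain ⟨b, rfl⟩ : ∃ b, y0 = 2 * b + 1 := ⟨y0 / 2, by omega⟩
        ring_nf at e1
        omega
      · exfalso
        obtain ⟨a, rfl⟩ : ∃ a, x0 = 2 * a + 1 := ⟨x0 / 2, by omega⟩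
        obtain ⟨b, rfl⟩ : ∃ b, y0 = 2 * b := ⟨y0 / 2, by omega⟩
        ring_nf at e1
        omega
      · exact ⟨hx, hy⟩
    obtain ⟨x, hx⟩ : ∃ x, 3 * y0 - x0 = 2 * x := ⟨(3 * y0 - x0) / 2, by omega⟩
    obtain ⟨y, hy⟩ : ∃ y, x0 - y0 = 2 * y := ⟨(x0 - y0) / 2, by omega⟩
    have hrep : 1 * x ^ 2 + (-3) * y ^ 2 = u := by
      have : 4 * (1 * x ^ 2 + (-3) * y ^ 2) = 4 * u := by
        have e1 : 4 * (1 * x ^ 2 + (-3) * y ^ 2) = (2 * x) ^ 2 - 3 * (2 * y) ^ 2 := by ring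
        rw [e1, ← hx, ← hy]
        linear_combination (-2) * hk
      linarith
    have hcop : IsCoprime u 2 := ⟨1, -(u / 2), by omega⟩
    have hd3 : u ∣ x - 2 * B * y := by
      apply hcop.dvd_of_dvd_mul_left
      have : 2 * (x - 2 * B * y) = (3 * y0 - 2 * B * x0) - (x0 - 2 * B * y0) := by
        linear_combination (-1) * hx + (2 * B) * hy
      rw [this]
      exact dvd_sub hd2 hd
    have hd4 : u ∣ 2 * B * x + (-3) * y := by
      have : 2 * B * x + (-3) * y = (2 * B) * (x - 2 * B * y) + y * (4 * B ^ 2 - 3) := by ring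
      rw [this]
      exact dvd_add (hd3.mul_left _) (hud.mul_left _)
    obtain ⟨x, y, r, s, hh⟩ := finish n A B u 1 (-3) x y hn hAB hu hu0 hA' (Or.inl ⟨rfl, rfl⟩)
      (by rintro rfl; nlinarith [sq_nonneg y]) hrep hd4 (by simpa using hd3)
      (by
        have : 4 * x ^ 2 = (3 * y0 - x0) ^ 2 := by rw [hx]; ring
        nlinarith [sq_nonneg (y0 + x0), sq_nonneg (y0 - x0)])
    exact ⟨1, -3, x, y, r, s, Or.inl ⟨rfl, rfl⟩, hh⟩
  · -- k = -3: then `u = 1`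
    have hu1 : u = 1 := by
      have hx00 : x0 = 0 := by nlinarith [sq_nonneg x0, sq_nonneg y0]
      have hy00 : y0 ^ 2 = u := by rw [hx00] at hk; linarith
      have h3u : u ∣ 3 * y0 := by rw [hx00] at hd2; simpa using hd2
      have hyne : y0 ≠ 0 := by rintro rfl; omega
      have h2B : u ∣ 2 * B * y0 := by
        rw [hx00] at hd
        have := (dvd_neg (a := u)).2 hd
        ring_nf at this ⊢
        exact this
      have hyB : y0 ∣ 2 * B := by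
        rw [← hy00, sq] at h2B
        exact (mul_dvd_mul_iff_right hyne).1 h2B
      have h3 : u ∣ 3 := by
        have h4 : y0 ^ 2 ∣ (2 * B) ^ 2 := pow_dvd_pow_of_dvd hyB 2
        rw [hy00] at h4
        have : (3 : ℤ) = (2 * B) ^ 2 - (4 * B ^ 2 - 3) := by ring
        rw [this]
        exact dvd_sub h4 hud
      have hle : u ≤ 3 := Int.le_of_dvd (by norm_num) h3
      have hy3 : y0 ≤ 1 := by nlinarith
      have hy4 : -1 ≤ y0 := by nlinarith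
      have : y0 = 1 ∨ y0 = -1 := by omega
      rcases this with h | h <;> rw [h] at hy00 <;> linarith
    obtain ⟨x, y, r, s, hh⟩ := finish n A B u 1 (-3) 1 0 hn hAB hu hu0 hA' (Or.inl ⟨rfl, rfl⟩)
      one_ne_zero (by rw [hu1]; norm_num) (by rw [hu1]; exact one_dvd _) (by rw [hu1]; exact one_dvd _)
      (by rw [hu1]; norm_num)
    exact ⟨1, -3, x, y, r, s, Or.inl ⟨rfl, rfl⟩, hh⟩

end Pool.Agent.Y241.PA
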