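import Pool.Agent.Y346.PA.Stm
import Pool.Agent.Y241.PA.Thue

set_option autoImplicit false

namespace Pool.Agent.Y241.PA

/-- Task TH of project PA. -/
theorem th : Pool.Agent.Y346.PA.S_TH := fun n A B hn hAB => th_aux n A B hn hAB

end Pool.Agent.Y241.PA
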