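import Pool.Agent.Y346.PA.Stm
import Pool.Agent.Y241.PA.Thue

set_option autoImplicit false

namespace Pool.Agent.Y241.PA

theorem finish2 (n m1 m2 x y : ℤ) (hm1 : 0 < m1) (hm : m1 * m2 = n ^ 2 + n + 1)
    (hx : x ≠ 0) (hrep : x ^ 2 + x * y + y ^ 2 = m1) (h1 : m1 ∣ x - n * y)
    (hyx : y ^ 2 ≤ 4 * x ^ 2) :
    ∃ x y r s : ℤ, 0 < x ∧ y * r - x * s = 1 ∧ x ^ 2 + x * y + y ^ 2 = m1 ∧
    r ^ 2 + r * s + s ^ 2 = m2 ∧ n = x * r + x * s + y * s ∧ |y| ≤ 2 * x ∧ x ^ 2 ≤ 4 * m1 ∧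
    r ^ 2 ≤ 4 * m2 := by
  wlog hx0 : 0 < x generalizing x y
  · refine this (-x) (-y) (by simpa using hx) (by linear_combination hrep) ?_
      (by simpa using hyx) (by omega)
    have : -x - n * -y = -(x - n * y) := by ring
    rw [this]; exact (dvd_neg).2 h1
  have h2 : m1 ∣ (x + y) + x * n := by
    have : (x + y) + x * n = (n + 1) * (x - n * y) + y * (m1 * m2) := by rw [hm]; ring
    rw [this]
    exact dvd_add (h1.mul_left _) ((dvd_mul_right _ _).mul_left _)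
  obtain ⟨r, hr⟩ := h2
  obtain ⟨s, hs⟩ := h1
  -- the second unknown has the opposite sign
  have e2 : y * r - x * (-s) = 1 := by
    apply mul_left_cancel₀ (ne_of_gt hm1)
    linear_combination (-y) * hr - x * hs + hrep
  have e3 : n = x * r + x * (-s) + y * (-s) := by
    apply mul_left_cancel₀ (ne_of_gt hm1)
    linear_combination x * hr - (x + y) * hs - n * hrep
  have e4 : r ^ 2 + r * (-s) + (-s) ^ 2 = m2 := by
    apply mul_left_cancel₀ (ne_of_gt hm1)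
    have h3 : m1 * (r ^ 2 + r * (-s) + (-s) ^ 2) = (x * r + x * (-s) + y * (-s)) ^ 2 +
        (x * r + x * (-s) + y * (-s)) * (y * r - x * (-s)) + (y * r - x * (-s)) ^ 2 := by
      rw [← hrep]; ring
    rw [h3, e2, ← e3, hm]
    ring
  refine ⟨x, y, r, -s, hx0, e2, hrep, e4, e3, abs_le_of_sq_le_sq (by linarith) (by omega), ?_, ?_⟩
  · nlinarith [sq_nonneg (x + 2 * y)]
  · nlinarith [sq_nonneg (r + 2 * (-s))]

theorem th2_aux (n m1 m2 : ℤ) (hm1 : 0 < m1) (hm : m1 * m2 = n ^ 2 + n + 1) :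
    ∃ x y r s : ℤ, 0 < x ∧ y * r - x * s = 1 ∧ x ^ 2 + x * y + y ^ 2 = m1 ∧
    r ^ 2 + r * s + s ^ 2 = m2 ∧ n = x * r + x * s + y * s ∧ |y| ≤ 2 * x ∧ x ^ 2 ≤ 4 * m1 ∧
    r ^ 2 ≤ 4 * m2 := by
  have hmd : m1 ∣ n ^ 2 + n + 1 := ⟨m2, hm.symm⟩
  obtain ⟨x0, y0, h0, hx0, hy0, hd⟩ := thue m1 hm1 n
  obtain ⟨k, hk⟩ : m1 ∣ x0 ^ 2 + x0 * y0 + y0 ^ 2 := by
    have h1 : x0 ^ 2 + x0 * y0 + y0 ^ 2 = (x0 + (n + 1) * y0) * (x0 - n * y0) +
      y0 ^ 2 * (n ^ 2 + n + 1) := by ring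
    rw [h1]
    exact dvd_add (hd.mul_left _) (hmd.mul_left _)
  have hpos : 0 < x0 ^ 2 + x0 * y0 + y0 ^ 2 := by
    rcases h0 with h | h
    · have : 0 < x0 ^ 2 := by positivity
      nlinarith [sq_nonneg (x0 + 2 * y0)]
    · have : 0 < y0 ^ 2 := by positivity
      nlinarith [sq_nonneg (2 * x0 + y0)]
  have hk0 : 0 < k := by
    by_contra h
    nlinarith
  have hk3 : k ≤ 3 := by nlinarith [sq_nonneg (x0 - y0)]
  have hoddm : m1 % 2 = 1 := by
    have h1 : (n ^ 2 + n + 1) % 2 = 1 := by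
      have h2 : (n * (n + 1)) % 2 = 0 := Int.even_iff.1 (Int.even_mul_succ_self n)
      have h3 : n ^ 2 + n + 1 = n * (n + 1) + 1 := by ring
      omega
    rcases Int.emod_two_eq_zero_or_one m1 with h | h
    · exfalso
      have h2 : (2 : ℤ) ∣ n ^ 2 + n + 1 := (Int.dvd_of_emod_eq_zero h).trans hmd
      omega
    · exact h
  have hcase : k = 1 ∨ k = 2 ∨ k = 3 := by omega
  rcases hcase with rfl | rfl | rfl
  · rw [mul_one] at hk
    by_cases hxy : y0 ^ 2 ≤ 4 * x0 ^ 2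
    · have hxne : x0 ≠ 0 := by
        rintro rfl
        have : y0 = 0 := by nlinarith
        rcases h0 with h | h
        · exact h rfl
        · exact h this
      exact finish2 n m1 m2 x0 y0 hm1 hm hxne hk hd hxy
    · push Not at hxy
      have hyne : y0 ≠ 0 := by
        rintro rfl
        nlinarith [sq_nonneg x0]
      refine finish2 n m1 m2 (-y0) (x0 + y0) hm1 hm (by simpa using hyne)
        (by linear_combination hk) ?_ (by nlinarith [sq_nonneg (x0 - y0)])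
      have h1 : -y0 - n * (x0 + y0) = (-n) * (x0 - n * y0) + (-y0) * (n ^ 2 + n + 1) := by ring
      rw [h1]
      exact dvd_add (hd.mul_left _) (hmd.mul_left _)
  · exfalso
    have e1 : (x0 ^ 2 + x0 * y0 + y0 ^ 2) % 4 = 2 := by rw [hk]; omega
    obtain ⟨a, ha⟩ : ∃ a, x0 = 2 * a ∨ x0 = 2 * a + 1 := ⟨x0 / 2, by omega⟩
    obtain ⟨b, hb⟩ : ∃ b, y0 = 2 * b ∨ y0 = 2 * b + 1 := ⟨y0 / 2, by omega⟩
    rcases ha with rfl | rfl <;> rcases hb with rfl | rfl <;> ring_nf at e1 <;> omega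
  · -- k = 3
    have hxy : x0 = y0 := by
      have : (x0 - y0) ^ 2 ≤ 0 := by nlinarith
      have h1 : (x0 - y0) ^ 2 = 0 := le_antisymm this (sq_nonneg _)
      have h2 : x0 - y0 = 0 := pow_eq_zero_iff (two_ne_zero) |>.1 h1
      linarith
    subst hxy
    have hxm : x0 ^ 2 = m1 := by nlinarith
    have hxne : x0 ≠ 0 := by rintro rfl; rcases h0 with h | h <;> exact h rfl
    have hxn : x0 ∣ 1 - n := by
      have h1 : x0 * x0 ∣ x0 * (1 - n) := by
        have : x0 * (1 - n) = x0 - n * x0 := by ring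
        rw [this, ← sq, hxm]
        exact hd
      exact (mul_dvd_mul_iff_left hxne).1 h1
    obtain ⟨t, ht⟩ := hxn
    have h3 : x0 ∣ 3 := by
      have h4 : x0 ∣ n ^ 2 + n + 1 := (Dvd.intro_left x0 (by rw [← sq])).trans (hxm ▸ hmd)
      have : (3 : ℤ) = (n ^ 2 + n + 1) + (n + 2) * (1 - n) := by ring
      rw [this, ht]
      exact dvd_add h4 ((dvd_mul_right _ _).mul_left _)
    have h9 : ¬ (9 : ℤ) ∣ n ^ 2 + n + 1 := by
      intro h9
      have h3n : (n ^ 2 + n + 1) % 9 = 0 := Int.emod_eq_zero_of_dvd h9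
      obtain ⟨a, c, hac, hc0, hc3⟩ : ∃ a c : ℤ, n = 3 * a + c ∧ 0 ≤ c ∧ c < 3 :=
        ⟨n / 3, n % 3, by omega, by omega, by omega⟩
      have hc : c = 0 ∨ c = 1 ∨ c = 2 := by omega
      rcases hc with rfl | rfl | rfl <;> rw [hac] at h3n <;> ring_nf at h3n <;> omega
    have hm11 : m1 = 1 := by
      have hle := Int.le_of_dvd (by norm_num) h3
      have hle' := Int.le_of_dvd (by norm_num) ((neg_dvd (a := x0)).2 h3)
      have hx : x0 = 1 ∨ x0 = -1 ∨ x0 = 3 ∨ x0 = -3 ∨ x0 = 2 ∨ x0 = -2 := by omega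
      rcases hx with rfl | rfl | rfl | rfl | rfl | rfl
      · linarith
      · linarith
      · exact absurd (by rw [← hxm] at hmd; norm_num at hmd; exact hmd) h9
      · exact absurd (by rw [← hxm] at hmd; norm_num at hmd; exact hmd) h9
      · norm_num at h3
      · norm_num at h3
    exact finish2 n m1 m2 1 0 hm1 hm one_ne_zero (by rw [hm11]; norm_num)
      (by rw [hm11]; exact one_dvd _) (by norm_num)

/-- Task TH2 of project PA. -/
theorem th2 : Pool.Agent.Y346.PA.S_TH2 := fun n m1 m2 _ hm1 hm => th2_aux n m1 m2 hm1 hm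

end Pool.Agent.Y241.PA
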